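import Pool.Agent.Helper978.DefMinor

/-! # Defective list colouring of `K_{r,s}`-minor-free graphs

For `4 ≤ r < s` the list version of the statement of MP_768e99_co fails at `d = s - 1`, and the
defect that `r` colours need is at least of order `r s / 4`. -/

set_option autoImplicit false

namespace Pool.Agent.Results.MP_768e99_co.DefectiveLists

open Pool.Agent.Helper978

/-- `B` is a family of branch sets of a minor of `G` isomorphic to `H`. -/
def IsModel {V W : Type} (G : SimpleGraph V) (H : SimpleGraph W) (B : W → Set V) : Prop :=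
  (∀ u, (G.induce (B u)).Connected) ∧ (∀ u v, u ≠ v → Disjoint (B u) (B v)) ∧
    ∀ u v, H.Adj u v → ∃ x ∈ B u, ∃ y ∈ B v, G.Adj x y

/-- `H` is a minor of `G`. -/
def IsMinor {V W : Type} (H : SimpleGraph W) (G : SimpleGraph V) : Prop :=
  ∃ B : W → Set V, IsModel G H B

/-- The defect of the vertex `v` in the colouring `c`: the number of neighbours of its colour. -/
noncomputable def defect {V : Type} (G : SimpleGraph V) (c : V → ℕ) (v : V) : ℕ :=
  ({w | G.Adj v w ∧ c w = c v} : Set V).ncard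

/-- `G` is `(k,d)^*`-choosable. -/
def DefChoosable {V : Type} (G : SimpleGraph V) (k d : ℕ) : Prop :=
  ∀ L : V → Finset ℕ, (∀ v, (L v).card = k) →
    ∃ c : V → ℕ, (∀ v, c v ∈ L v) ∧ ∀ v, defect G c v ≤ d

theorem core {ρ s d : ℕ} (t : DefMinor.Hb ρ → ℕ) (hρs : ρ + 2 ≤ s) (ht1 : ∀ m, 1 ≤ t m)
    (ht2 : ∀ m m', m ≠ m' → t m + t m' + 1 ≤ s) (ht : 2 * d < ∑ m, t m) :
    ∃ (V : Type) (_ : Finite V) (G : SimpleGraph V),
      ¬ IsMinor (completeBipartiteGraph (Fin (ρ + 1)) (Fin s)) G ∧ ¬ DefChoosable G (ρ + 1) d := by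
  classical
  refine ⟨DefMinor.Vt ρ (ρ * d + 1) t, inferInstance, DefMinor.G ρ (ρ * d + 1) t, ?_, ?_⟩
  · rintro ⟨B, h1, h2, h3⟩
    refine DefMinor.no_minor hρs ht1 ht2 B h1 h2 ?_
    intro a b
    exact h3 (Sum.inl a) (Sum.inr b) (by simp)
  · intro h
    obtain ⟨c, hc, hd⟩ := h DefMinor.L DefMinor.L_card
    obtain ⟨v, hv⟩ := DefMinor.big_defect ht c hc
    exact absurd (hd v) (not_le.mpr hv)

/-- the numbers of leaves -/
def tt (ρ s : ℕ) : DefMinor.Hb ρ → ℕ
  | .inl _ => (s - 1) / 2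
  | .inr 0 => s / 2
  | .inr 1 => (s - 1) / 2

/-- **Defective list colouring of `K_{r,s}`-minor-free graphs.** Let `4 ≤ r < s`.
(1) Some finite `K_{r,s}`-minor-free graph is not `(r,d)^*`-choosable, for every `d` with
`2 d < r ⌊(s-1)/2⌋ + ⌊s/2⌋`.
(2) In particular it is not `(r + s - 1 - d, d)^*`-choosable for `d = s - 1`. -/
theorem result (r s : ℕ) (hr : 4 ≤ r) (hs : r < s) :
    (∀ d, 2 * d < r * ((s - 1) / 2) + s / 2 →
      ∃ (V : Type) (_ : Finite V) (G : SimpleGraph V),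
        ¬ IsMinor (completeBipartiteGraph (Fin r) (Fin s)) G ∧ ¬ DefChoosable G r d) ∧
    ∃ d, d ≤ s - 1 ∧ ∃ (V : Type) (_ : Finite V) (G : SimpleGraph V),
      ¬ IsMinor (completeBipartiteGraph (Fin r) (Fin s)) G ∧
        ¬ DefChoosable G (r + s - 1 - d) d := by
  obtain ⟨ρ, rfl⟩ : ∃ ρ, r = ρ + 1 := ⟨r - 1, by omega⟩
  have main : ∀ d, 2 * d < (ρ + 1) * ((s - 1) / 2) + s / 2 →
      ∃ (V : Type) (_ : Finite V) (G : SimpleGraph V),
        ¬ IsMinor (completeBipartiteGraph (Fin (ρ + 1)) (Fin s)) G ∧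
          ¬ DefChoosable G (ρ + 1) d := by
    intro d hd
    refine core (tt ρ s) (by omega) ?_ ?_ ?_
    · rintro (i | j)
      · simp only [tt]; omega
      · fin_cases j <;> simp only [tt] <;> omega
    · rintro (i | j) (i' | j') hne
      · simp only [tt]; omega
      · fin_cases j' <;> simp only [tt] <;> omega
      · fin_cases j <;> simp only [tt] <;> omega
      · fin_cases j <;> fin_cases j' <;> simp [tt] at hne ⊢ <;> omega
    · rw [Fintype.sum_sum_type]
      simp only [tt, Finset.sum_const, Finset.card_univ, Fintype.card_fin, smul_eq_mul,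
        Fin.sum_univ_two]
      nlinarith [hd]
  refine ⟨main, s - 1, le_rfl, ?_⟩
  have e : ρ + 1 + s - 1 - (s - 1) = ρ + 1 := by omega
  rw [e]
  apply main
  have h4 : 4 * ((s - 1) / 2) ≤ (ρ + 1) * ((s - 1) / 2) := Nat.mul_le_mul_right _ hr
  omega

end Pool.Agent.Results.MP_768e99_co.DefectiveLists
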